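import Pool.Agent.V11229.UcPoly
import Pool.Agent.V11229.CutCore

/-!
# The up-color domination weight of interval graphs: `NP`-completeness
-/

namespace Pool.Agent.Results.MP_07a0c6_lc.IntervalNPComplete

open Pool.Agent.NPC Pool.Agent.V11229 Pool.Agent.V11229.Uc

/-- Interval graphs: intersection graphs of closed intervals of the real line. -/
def IsInterval {V : Type} (G : SimpleGraph V) : Prop :=
  ∃ lo hi : V → ℝ, (∀ v, lo v ≤ hi v) ∧
    ∀ u v, G.Adj u v ↔ u ≠ v ∧ (Set.Icc (lo u) (hi u) ∩ Set.Icc (lo v) (hi v)).Nonempty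

/-- `c` is a coloring of `G` with the colors `0, 1, 2, …`. -/
def IsColoring {V : Type} (G : SimpleGraph V) (c : V → ℕ) : Prop := ∀ u v, G.Adj u v → c u ≠ c v

/-- `D` is up-color dominating for `(G, c)`. -/
def UpColorDominating {V : Type} (G : SimpleGraph V) (c : V → ℕ) (D : Finset V) : Prop :=
  (∀ v ∈ D, c v ≠ 0) ∧ ∀ v, v ∉ D → ∃ d ∈ D, G.Adj v d ∧ c v < c d

/-- The up-color domination weight `Ω_uc(G)`: the minimum, over all colorings `c` of `G` and all
up-color dominating sets `D` for `(G, c)`, of the weight of `D`. -/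
noncomputable def OmegaUC {V : Type} (G : SimpleGraph V) : ℕ :=
  sInf {w | ∃ (c : V → ℕ) (D : Finset V),
    IsColoring G c ∧ UpColorDominating G c D ∧ ∑ d ∈ D, c d = w}

/-- UCW for interval graphs: the instance is `(G, k)`. -/
def UCWInterval (I : FG × ℕ) : Prop := IsInterval I.1.G ∧ 0 < I.2 ∧ OmegaUC I.1.G ≤ I.2

/-- a certificate -/
def Cert {V : Type} (G : SimpleGraph V) (k : ℕ) : Prop :=
  ∃ (c : V → ℕ) (D : Finset V), IsColoring G c ∧ UpColorDominating G c D ∧ ∑ d ∈ D, c d ≤ k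

theorem omega_le_iff {n : ℕ} (G : SimpleGraph (Fin n)) (k : ℕ) : OmegaUC G ≤ k ↔ Cert G k := by
  classical
  constructor
  · intro h
    have hne : {w | ∃ (c : Fin n → ℕ) (D : Finset (Fin n)),
        IsColoring G c ∧ UpColorDominating G c D ∧ ∑ d ∈ D, c d = w}.Nonempty := by
      refine ⟨_, fun v => (v : ℕ) + 1, Finset.univ, ?_, ⟨?_, ?_⟩, rfl⟩
      · intro u v huv h1
        exact huv.ne (Fin.ext (by simpa using h1))
      · intro v _
        simp
      · intro v hv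
        exact absurd (Finset.mem_univ v) hv
    obtain ⟨c, D, h1, h2, h3⟩ := Nat.sInf_mem hne
    refine ⟨c, D, h1, h2, ?_⟩
    rw [h3]
    exact h
  · rintro ⟨c, D, h1, h2, h3⟩
    have h4 : OmegaUC G ≤ ∑ d ∈ D, c d := Nat.sInf_le ⟨c, D, h1, h2, rfl⟩
    exact h4.trans h3

theorem Cert.of_iso {V W : Type} {G : SimpleGraph V} {H : SimpleGraph W} (e : G ≃g H) {k : ℕ}
    (h : Cert G k) : Cert H k := by
  classical
  obtain ⟨c, D, h1, h2, h3⟩ := h
  refine ⟨fun w => c (e.symm w), D.image e, ?_, ⟨?_, ?_⟩, ?_⟩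
  · intro u v huv
    exact h1 _ _ (e.symm.map_adj_iff.2 huv)
  · intro v hv
    obtain ⟨u, hu, rfl⟩ := Finset.mem_image.1 hv
    simpa using h2.1 u hu
  · intro v hv
    have hv' : e.symm v ∉ D := fun h => hv (Finset.mem_image.2 ⟨_, h, by simp⟩)
    obtain ⟨d, hd, ha, hlt⟩ := h2.2 _ hv'
    refine ⟨e d, Finset.mem_image_of_mem _ hd, ?_, by simpa using hlt⟩
    rw [← e.symm.map_adj_iff]
    simpa using ha
  · rw [Finset.sum_image (fun a _ b _ hab => e.injective hab)]
    simpa using h3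

theorem icc_iff {a b c d : ℝ} (h1 : a ≤ b) (h2 : c ≤ d) :
    (Set.Icc a b ∩ Set.Icc c d).Nonempty ↔ a ≤ d ∧ c ≤ b := by
  rw [Set.Icc_inter_Icc, Set.nonempty_Icc, sup_le_iff, le_inf_iff, le_inf_iff]
  tauto

theorem isInterval_of_nat {V : Type} {G : SimpleGraph V} (lo hi : V → ℕ) (h1 : ∀ v, lo v ≤ hi v)
    (h2 : ∀ u v, G.Adj u v ↔ u ≠ v ∧ lo u ≤ hi v ∧ lo v ≤ hi u) : IsInterval G := by
  refine ⟨fun v => lo v, fun v => hi v, fun v => Nat.cast_le.2 (h1 v), fun u v => ?_⟩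
  rw [h2, icc_iff (Nat.cast_le.2 (h1 u)) (Nat.cast_le.2 (h1 v)), Nat.cast_le, Nat.cast_le]

theorem nat_of_isInterval {n : ℕ} {G : SimpleGraph (Fin n)} (h : IsInterval G) :
    ∃ lo hi : Fin n → ℕ, (∀ v, lo v ≤ 2 * n) ∧ (∀ v, hi v ≤ 2 * n) ∧ (∀ v, lo v ≤ hi v) ∧
      ∀ u v, G.Adj u v ↔ u ≠ v ∧ lo u ≤ hi v ∧ lo v ≤ hi u := by
  classical
  obtain ⟨lo, hi, h1, h2⟩ := h
  let S : Finset ℝ := Finset.univ.image lo ∪ Finset.univ.image hi
  have hS : S.card ≤ 2 * n := by
    refine (Finset.card_union_le _ _).trans ?_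
    have a1 : (Finset.univ.image lo).card ≤ n := Finset.card_image_le.trans (by simp)
    have a2 : (Finset.univ.image hi).card ≤ n := Finset.card_image_le.trans (by simp)
    omega
  let rk : ℝ → ℕ := fun x => (S.filter (fun y => y < x)).card
  have hlt : ∀ x, rk x ≤ 2 * n := fun x => (Finset.card_filter_le _ _).trans hS
  have hle : ∀ x ∈ S, ∀ y ∈ S, (x ≤ y ↔ rk x ≤ rk y) := by
    intro x hx y hy
    constructor
    · intro hxy
      apply Finset.card_le_card
      intro z hz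
      rw [Finset.mem_filter] at hz ⊢
      exact ⟨hz.1, lt_of_lt_of_le hz.2 hxy⟩
    · intro hr
      by_contra hcon
      push Not at hcon
      refine absurd hr (not_le.2 (Finset.card_lt_card ?_))
      rw [Finset.ssubset_iff_of_subset]
      · exact ⟨y, by rw [Finset.mem_filter]; exact ⟨hy, hcon⟩, by simp⟩
      · intro z hz
        rw [Finset.mem_filter] at hz ⊢
        exact ⟨hz.1, hz.2.trans hcon⟩
  have hloS : ∀ v, lo v ∈ S := fun v =>
    Finset.mem_union_left _ (Finset.mem_image_of_mem _ (Finset.mem_univ _))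
  have hhiS : ∀ v, hi v ∈ S := fun v =>
    Finset.mem_union_right _ (Finset.mem_image_of_mem _ (Finset.mem_univ _))
  refine ⟨fun v => rk (lo v), fun v => rk (hi v), fun v => hlt _, fun v => hlt _, ?_, ?_⟩
  · intro v
    exact (hle _ (hloS v) _ (hhiS v)).1 (h1 v)
  · intro u v
    rw [h2, icc_iff (h1 u) (h1 v), hle _ (hloS u) _ (hhiS v), hle _ (hloS v) _ (hhiS u)]

/-! ### Membership in `NP` -/

/-- the weight -/
def wt (M : LMat Bool) (c : List ℕ) (d : List Bool) : ℕ :=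
  ((List.range M.n).map (fun i => if d.getD i false = true then c.getD i 0 else 0)).sum

/-- the verifier -/
def ver (x : (LMat Bool × ℕ) × ((List ℕ × List ℕ) × (List ℕ × List Bool))) : Bool :=
  (List.range x.1.1.n).all (fun i =>
    (decide (x.2.1.1.getD i 0 ≤ x.2.1.2.getD i 0) &&
    (List.range x.1.1.n).all (fun j =>
      decide (x.1.1.ent false i j = (!(decide (i = j)) &&
        (decide (x.2.1.1.getD i 0 ≤ x.2.1.2.getD j 0) &&
          decide (x.2.1.1.getD j 0 ≤ x.2.1.2.getD i 0)))) &&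
      (!(x.1.1.ent false i j) || !(decide (x.2.2.1.getD i 0 = x.2.2.1.getD j 0))))) &&
    ((x.2.2.2.getD i false && !(decide (x.2.2.1.getD i 0 = 0))) ||
      (!(x.2.2.2.getD i false) && (List.range x.1.1.n).any (fun j => x.2.2.2.getD j false &&
        (x.1.1.ent false i j && decide (x.2.2.1.getD i 0 < x.2.2.1.getD j 0)))))) &&
  (decide (0 < x.1.2) && decide (wt x.1.1 x.2.2.1 x.2.2.2 ≤ x.1.2))

theorem wt_poly {α : Type} [TEnc α] {M : α → LMat Bool} {c : α → List ℕ} {d : α → List Bool}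
    (hM : Poly M) (hc : Poly c) (hd : Poly d) : Poly (fun a => wt (M a) (c a) (d a)) := by
  unfold wt
  refine NPC.Poly.sum (NPC.Poly.map (F := fun a i =>
    if (d a).getD i false = true then (c a).getD i 0 else 0) (UPoly.range (UPoly.lmat_n hM)) ?_)
  fun_prop

attribute [local fun_prop] wt_poly

theorem ver_poly : Poly ver := by
  unfold ver
  refine NPC.Poly.and ?_ (by fun_prop)
  refine Poly.allRange
    (n := fun x : (LMat Bool × ℕ) × ((List ℕ × List ℕ) × (List ℕ × List Bool)) => x.1.1.n)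
    (p := fun x i => (decide (x.2.1.1.getD i 0 ≤ x.2.1.2.getD i 0) &&
    (List.range x.1.1.n).all (fun j =>
      decide (x.1.1.ent false i j = (!(decide (i = j)) &&
        (decide (x.2.1.1.getD i 0 ≤ x.2.1.2.getD j 0) &&
          decide (x.2.1.1.getD j 0 ≤ x.2.1.2.getD i 0)))) &&
      (!(x.1.1.ent false i j) || !(decide (x.2.2.1.getD i 0 = x.2.2.1.getD j 0))))) &&
    ((x.2.2.2.getD i false && !(decide (x.2.2.1.getD i 0 = 0))) ||
      (!(x.2.2.2.getD i false) && (List.range x.1.1.n).any (fun j => x.2.2.2.getD j false &&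
        (x.1.1.ent false i j && decide (x.2.2.1.getD i 0 < x.2.2.1.getD j 0))))))
    (UPoly.lmat_n (by fun_prop)) ?_
  refine NPC.Poly.and (NPC.Poly.and (by fun_prop) ?_)
    (NPC.Poly.or (by fun_prop) (NPC.Poly.and (by fun_prop) ?_))
  · exact Poly.allRange
      (n := fun x : ((LMat Bool × ℕ) × ((List ℕ × List ℕ) × (List ℕ × List Bool))) × ℕ =>
        x.1.1.1.n)
      (p := fun x j => decide (x.1.1.1.ent false x.2 j = (!(decide (x.2 = j)) &&
        (decide (x.1.2.1.1.getD x.2 0 ≤ x.1.2.1.2.getD j 0) &&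
          decide (x.1.2.1.1.getD j 0 ≤ x.1.2.1.2.getD x.2 0)))) &&
        (!(x.1.1.1.ent false x.2 j) ||
          !(decide (x.1.2.2.1.getD x.2 0 = x.1.2.2.1.getD j 0))))
      (UPoly.lmat_n (by fun_prop)) (by fun_prop)
  · exact Poly.anyRange
      (n := fun x : ((LMat Bool × ℕ) × ((List ℕ × List ℕ) × (List ℕ × List Bool))) × ℕ =>
        x.1.1.1.n)
      (p := fun x j => x.1.2.2.2.getD j false &&
        (x.1.1.1.ent false x.2 j && decide (x.1.2.2.1.getD x.2 0 < x.1.2.2.1.getD j 0)))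
      (UPoly.lmat_n (by fun_prop)) (by fun_prop)

theorem sum_map_range (n : ℕ) (f : ℕ → ℕ) : ((List.range n).map f).sum = ∑ i : Fin n, f i := by
  rw [Fin.sum_univ_eq_sum_range, ← List.sum_toFinset _ List.nodup_range]
  refine Finset.sum_congr ?_ fun _ _ => rfl
  ext i; simp

theorem wt_eq (X : FG) (c : List ℕ) (d : List Bool) : wt X.mat c d =
    ∑ v ∈ Finset.univ.filter (fun v : Fin X.n => d.getD v false = true), c.getD v 0 := by
  unfold wt
  rw [sum_map_range, Finset.sum_filter]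
  rfl

theorem ver_iff (X : FG) (k : ℕ) (lo hi : List ℕ) (c : List ℕ) (d : List Bool) :
    ver ((X.mat, k), ((lo, hi), (c, d))) = true ↔
    (∀ u : Fin X.n, lo.getD u 0 ≤ hi.getD u 0) ∧
    (∀ u v : Fin X.n, X.G.Adj u v ↔ u ≠ v ∧ lo.getD u 0 ≤ hi.getD v 0 ∧
      lo.getD v 0 ≤ hi.getD u 0) ∧
    IsColoring X.G (fun v : Fin X.n => c.getD v 0) ∧
    UpColorDominating X.G (fun v : Fin X.n => c.getD v 0)
      (Finset.univ.filter (fun v : Fin X.n => d.getD v false = true)) ∧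
    0 < k ∧
    ∑ v ∈ Finset.univ.filter (fun v : Fin X.n => d.getD v false = true), c.getD v 0 ≤ k := by
  have hadj : ∀ i j : Fin X.n, (X.mat.ent false i j = (!(decide ((i : ℕ) = j)) &&
        (decide (lo.getD i 0 ≤ hi.getD j 0) && decide (lo.getD j 0 ≤ hi.getD i 0)))) ↔
      (X.G.Adj i j ↔ i ≠ j ∧ lo.getD i 0 ≤ hi.getD j 0 ∧ lo.getD j 0 ≤ hi.getD i 0) := by
    intro i j
    rw [Bool.eq_iff_iff, X.ent_iff i j]
    simp only [Bool.and_eq_true, Bool.not_eq_true', decide_eq_false_iff_not, decide_eq_true_eq,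
      ne_eq, Fin.ext_iff]
  simp only [ver, Bool.and_eq_true, List.all_eq_true, List.mem_range, List.any_eq_true,
    Bool.or_eq_true, decide_eq_true_eq, Bool.not_eq_true', decide_eq_false_iff_not, wt_eq,
    FG.mat_n]
  unfold IsColoring UpColorDominating
  constructor
  · rintro ⟨h, hk, hs⟩
    refine ⟨fun u => (h u u.isLt).1.1, ?_, ?_, ⟨?_, ?_⟩, hk, hs⟩
    · intro u v
      exact (hadj u v).1 ((h u u.isLt).1.2 v v.isLt).1
    · intro u v huv
      rcases ((h u u.isLt).1.2 v v.isLt).2 with h1 | h1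
      · rw [(X.ent_iff u v).2 huv] at h1
        exact absurd h1 (by simp)
      · exact h1
    · intro v hv
      rw [Finset.mem_filter] at hv
      rcases (h v v.isLt).2 with h1 | h1
      · exact h1.2
      · rw [hv.2] at h1
        exact absurd h1.1 (by simp)
    · intro v hv
      rw [Finset.mem_filter, not_and] at hv
      rcases (h v v.isLt).2 with h1 | h1
      · exact absurd h1.1 (hv (Finset.mem_univ _))
      · obtain ⟨j, hj, h2, h3, h4⟩ := h1.2
        exact ⟨⟨j, hj⟩, by simpa using h2, (X.ent_iff v ⟨j, hj⟩).1 h3, h4⟩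
  · rintro ⟨h0, h1, h2, ⟨h3, h4⟩, hk, hs⟩
    refine ⟨fun i hi' => ⟨⟨h0 ⟨i, hi'⟩, fun j hj => ⟨?_, ?_⟩⟩, ?_⟩, hk, hs⟩
    · exact (hadj ⟨i, hi'⟩ ⟨j, hj⟩).2 (h1 _ _)
    · by_cases ha : X.G.Adj ⟨i, hi'⟩ ⟨j, hj⟩
      · exact Or.inr (h2 _ _ ha)
      · left
        rw [← X.ent_iff ⟨i, hi'⟩ ⟨j, hj⟩] at ha
        simpa using ha
    · by_cases hd : d.getD i false = true
      · exact Or.inl ⟨hd, h3 ⟨i, hi'⟩ (by simpa using hd)⟩
      · right
        refine ⟨by simpa using hd, ?_⟩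
        obtain ⟨w, hw, h5, h6⟩ := h4 ⟨i, hi'⟩ (by simpa using hd)
        exact ⟨w, w.isLt, by simpa using hw, (X.ent_iff ⟨i, hi'⟩ w).2 h5, h6⟩

theorem sz_ofFn_le {n : ℕ} (f : Fin n → ℕ) (k : ℕ) (hf : ∀ i, f i ≤ k) :
    sz (List.ofFn f) ≤ n * (2 * sz k + 1) + 1 := by
  have h := sz_le_length_mul (List.ofFn f) (2 * sz k) (by
    intro a ha
    rw [List.mem_ofFn] at ha
    obtain ⟨i, rfl⟩ := ha
    exact sz_nat_mono_le (hf i))
  simpa using h

theorem ofFn_getD {n : ℕ} (f : Fin n → ℕ) (i : Fin n) : (List.ofFn f).getD i 0 = f i := by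
  simp [List.getD_eq_getElem?_getD]

/-- The problem is in `NP`. -/
theorem inNPP_ucw : InNPP UCWInterval := by
  classical
  refine inNPP_FG ver_poly (60 * Polynomial.X * Polynomial.X + 60 * Polynomial.X + 60) ?_
  rintro ⟨X, k⟩
  unfold UCWInterval
  simp only
  rw [omega_le_iff]
  constructor
  · rintro ⟨hI, hk, c, D, h1, h2, h3⟩
    obtain ⟨lo, hi, b1, b2, b3, b4⟩ := nat_of_isInterval hI
    have hcD : ∀ v ∈ D, c v ≤ k := fun v hv =>
      (Finset.single_le_sum (f := c) (fun _ _ => Nat.zero_le _) hv).trans h3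
    have hc : ∀ v, c v ≤ k := by
      intro v
      by_cases hv : v ∈ D
      · exact hcD v hv
      · obtain ⟨d, hd, _, hlt⟩ := h2.2 v hv
        exact hlt.le.trans (hcD d hd)
    have hD2 : (Finset.univ.filter (fun v : Fin X.n => (indL (D : Set (Fin X.n))).getD v false =
        true)) = D := by
      ext v
      rw [Finset.mem_filter, indL_getD]
      simp
    have hc2 : (fun v : Fin X.n => (List.ofFn c).getD v 0) = c := funext (ofFn_getD c)
    refine ⟨((List.ofFn lo, List.ofFn hi), (List.ofFn c, indL (D : Set (Fin X.n)))), ?_, ?_⟩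
    · have e1 := sz_ofFn_le lo (2 * X.n) b1
      have e1' := sz_ofFn_le hi (2 * X.n) b2
      have e2 := sz_indL (D : Set (Fin X.n))
      have e3 := sz_ofFn_le c k hc
      have e4 := sz_mat_gt X.mat
      rw [FG.mat_n] at e4
      have e6 : sz (2 * X.n) ≤ 8 * X.n + 1 := by
        have h5 := sz_nat_le (2 * X.n)
        have h6 : (2 * X.n).size ≤ 2 * X.n := Nat.size_le.2 Nat.lt_two_pow_self
        omega
      rw [sz_pair, sz_pair, sz_pair, sz_pair]
      simp only [Polynomial.eval_add, Polynomial.eval_mul, Polynomial.eval_X,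
        Polynomial.eval_ofNat]
      have e5 : X.n * (2 * sz k + 1) ≤ sz X.mat * (2 * sz k + 1) := Nat.mul_le_mul_right _ e4.le
      have e7 : X.n * (2 * sz (2 * X.n) + 1) ≤ sz X.mat * (2 * (8 * sz X.mat + 1) + 1) := by
        have h7 : 2 * sz (2 * X.n) + 1 ≤ 2 * (8 * sz X.mat + 1) + 1 := by omega
        exact Nat.mul_le_mul e4.le h7
      nlinarith
    · rw [ver_iff, hD2, hc2]
      refine ⟨?_, ?_, h1, h2, hk, h3⟩
      · intro u
        rw [ofFn_getD, ofFn_getD]
        exact b3 u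
      · intro u v
        rw [ofFn_getD, ofFn_getD, ofFn_getD, ofFn_getD]
        exact b4 u v
  · rintro ⟨⟨⟨lo, hi⟩, c, d⟩, _, h⟩
    rw [ver_iff] at h
    obtain ⟨h0, h1, h2, h3, hk, h4⟩ := h
    exact ⟨isInterval_of_nat _ _ h0 h1, hk, _, _, h2, h3, h4⟩

/-! ### The reduction from satisfiability -/

theorem cert_iff {Λ : Type} [DecidableEq Λ] {vs : List Λ} (hn : vs.Nodup) (ad : Λ → Λ → Bool)
    (W : ℕ) : Cert (FG.ofList vs ad).G W ↔
      ∃ (c : Λ → ℕ) (D : Finset Λ), LC vs (fun x y => ad x y = true ∨ ad y x = true) c D ∧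
        ∑ d ∈ D, c d ≤ W := by
  classical
  let H : SimpleGraph {x // x ∈ vs} :=
    { Adj := fun x y => x ≠ y ∧ (ad x y = true ∨ ad y x = true)
      symm := ⟨fun _ _ h => ⟨h.1.symm, h.2.symm⟩⟩
      loopless := ⟨fun _ h => h.1 rfl⟩ }
  obtain ⟨e⟩ := FG.ofList_iso vs hn (Subtype.val : {x // x ∈ vs} → Λ) Subtype.val_injective
    (fun z => ⟨fun hz => ⟨⟨z, hz⟩, rfl⟩, fun ⟨x, hx⟩ => hx ▸ x.2⟩) ad H (fun _ _ => Iff.rfl)
  have h0 : Cert (FG.ofList vs ad).G W ↔ Cert H W := ⟨fun h => h.of_iso e, fun h => h.of_iso e.symm⟩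
  rw [h0]
  constructor
  · rintro ⟨c, D, h1, h2, h3⟩
    refine ⟨fun x => if h : x ∈ vs then c ⟨x, h⟩ else 0, D.image Subtype.val, ⟨?_, ?_, ?_, ?_⟩, ?_⟩
    · intro x hx y hy hne had
      simp only [hx, hy, dif_pos]
      exact h1 ⟨x, hx⟩ ⟨y, hy⟩ ⟨fun he => hne (congrArg Subtype.val he), had⟩
    · intro d hd
      obtain ⟨d', _, rfl⟩ := Finset.mem_image.1 hd
      exact d'.2
    · intro d hd
      obtain ⟨d', hd', rfl⟩ := Finset.mem_image.1 hd
      simp only [d'.2, dif_pos]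
      exact Nat.pos_of_ne_zero (h2.1 d' hd')
    · intro v hv hvD
      have hv' : (⟨v, hv⟩ : {x // x ∈ vs}) ∉ D := fun h => hvD (Finset.mem_image.2 ⟨_, h, rfl⟩)
      obtain ⟨d, hd, had, hlt⟩ := h2.2 _ hv'
      refine ⟨d.1, Finset.mem_image_of_mem _ hd, fun he => had.1 (Subtype.ext he.symm), had.2, ?_⟩
      simp only [hv, d.2, dif_pos]
      exact hlt
    · rw [Finset.sum_image (fun a _ b _ hab => Subtype.ext hab)]
      refine le_trans (le_of_eq (Finset.sum_congr rfl fun d _ => ?_)) h3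
      simp only [d.2, dif_pos]
  · rintro ⟨c, D, hL, h3⟩
    refine ⟨fun x => c x.1, D.subtype (fun x => x ∈ vs), ?_, ⟨?_, ?_⟩, ?_⟩
    · intro x y hxy
      exact hL.col x.1 x.2 y.1 y.2 (fun he => hxy.1 (Subtype.ext he)) hxy.2
    · intro d hd
      rw [Finset.mem_subtype] at hd
      exact (hL.pos d.1 hd).ne'
    · intro v hv
      rw [Finset.mem_subtype] at hv
      obtain ⟨d, hd, hne, had, hlt⟩ := hL.dom v.1 v.2 hv
      refine ⟨⟨d, hL.mem d hd⟩, ?_, ⟨fun he => hne (congrArg Subtype.val he).symm, had⟩, hlt⟩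
      rw [Finset.mem_subtype]
      exact hd
    · rw [Finset.sum_subtype_of_mem c hL.mem]
      exact h3

theorem lo_le_hi {Ev : List (List ℕ)} {n m : ℕ} {mL mR : List ℕ} {x : Lab}
    (hx : x ∈ vs Ev n m) : lo Ev mL x ≤ hi Ev mR x := by
  rcases vs_cases hx with ⟨b', hb', rfl⟩ | ⟨l, hl, t, ht, ht2, rfl⟩ | ⟨b', hb', rfl⟩ | rfl |
      ⟨b', hb', rfl⟩ | ⟨b', hb', rfl⟩ | ⟨b', hb', rfl⟩ | rfl | ⟨b', hb', rfl⟩ | ⟨b', hb', rfl⟩
  · simp [lo, hi]
  · have h1 := (lo1 (Ev := Ev) (mL := mL) l t).2.1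
    have h2 := hi1_ge (Ev := Ev) (mR := mR) l t
    omega
  all_goals simp [lo, hi]

theorem red_iff (φ : List (Lit ℕ × Lit ℕ × Lit ℕ))
    (h : Distinct3 φ ∧ Bounded3 φ ∧ φ ≠ []) : SAT3 φ ↔ UCWInterval (redI φ) := by
  have hH := hyp_evs φ h.2.2
  have hint : IsInterval (redI φ).1.G := by
    refine isInterval_of_nat
      (fun i : Fin (vs (evs φ) (nn φ.length) φ.length).length =>
        lo (evs φ) (midL φ.length) (vs (evs φ) (nn φ.length) φ.length)[i])
      (fun i => hi (evs φ) (midR φ.length) (vs (evs φ) (nn φ.length) φ.length)[i])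
      (fun i => lo_le_hi (List.getElem_mem i.isLt)) (fun u v => ?_)
    change (u ≠ v ∧ (adI _ _ _ _ _ = true ∨ adI _ _ _ _ _ = true)) ↔ _
    unfold adI
    simp only [Bool.and_eq_true, decide_eq_true_eq]
    tauto
  have hpos : 0 < (redI φ).2 := by
    change 0 < nn φ.length + 2 * φ.length + 5
    omega
  have hc := cert_iff (vs_nodup (Ev := evs φ) (n := nn φ.length) (m := φ.length))
    (adI (evs φ) (midL φ.length) (midR φ.length)) (nn φ.length + 2 * φ.length + 5)
  have had : (fun x y => adI (evs φ) (midL φ.length) (midR φ.length) x y = true ∨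
      adI (evs φ) (midL φ.length) (midR φ.length) y x = true) =
      Tch (evs φ) (midL φ.length) (midR φ.length) := by
    funext x y
    apply propext
    unfold adI Tch
    simp only [Bool.and_eq_true, decide_eq_true_eq]
    tauto
  rw [had] at hc
  constructor
  · intro hs
    refine ⟨hint, hpos, (omega_le_iff _ _).2 (hc.2 ?_)⟩
    obtain ⟨c0, cR, v0, hr, l2, l3, r2, r3⟩ := sat_complete h.2.1 hs
    obtain ⟨cs, rfl, rfl, hv, hst⟩ := seq_of_run (evs φ) v0 hr
    obtain ⟨hL, hw⟩ := complete hH cs hv hst l2 l3 r2 r3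
    exact ⟨_, _, hL, hw⟩
  · rintro ⟨_, _, hO⟩
    obtain ⟨c, D, hL, hw⟩ := hc.1 ((omega_le_iff _ _).1 hO)
    obtain ⟨η, hη, cs, hv, hst, l1, l2, l3, r1, r2, r3, r4⟩ := sound hH hL hw
    exact sat_sound h.2.1 hη (hv 0 (Nat.zero_le _)) (run_of_seq (evs φ) cs hv hst) l1 l3 r2 r4

theorem npHard_ucw : NPHardP UCWInterval :=
  (hardPr_SAT3b.trans (Pr' := fun _ => True) redI_poly (fun _ _ => trivial)
    red_iff).toHardI.toNPHardP

/-- **UCW for interval graphs is `NP`-complete.** -/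
theorem result : InNPP UCWInterval ∧ NPHardP UCWInterval := ⟨inNPP_ucw, npHard_ucw⟩

end Pool.Agent.Results.MP_07a0c6_lc.IntervalNPComplete
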