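import Pool.Agent.V11229.UcTreePoly

/-!
# The up-color domination weight of trees and forests in polynomial time
-/

namespace Pool.Agent.Results.MP_07a0c6_lc.TreesPolynomial

open Pool.Agent.NPC Pool.Agent.V11229 Pool.Agent.V11229.Uct

/-- `c` is a coloring of `G` with the colors `0, 1, 2, …`. -/
def IsColoring {V : Type} (G : SimpleGraph V) (c : V → ℕ) : Prop := ∀ u v, G.Adj u v → c u ≠ c v

/-- `D` is up-color dominating for `(G, c)`. -/
def UpColorDominating {V : Type} (G : SimpleGraph V) (c : V → ℕ) (D : Finset V) : Prop :=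
  (∀ v ∈ D, c v ≠ 0) ∧ ∀ v, v ∉ D → ∃ d ∈ D, G.Adj v d ∧ c v < c d

/-- The up-color domination weight `Ω_uc(G)`: the minimum, over all colorings `c` of `G` and all
up-color dominating sets `D` for `(G, c)`, of the weight of `D`. -/
noncomputable def OmegaUC {V : Type} (G : SimpleGraph V) : ℕ :=
  sInf {w | ∃ (c : V → ℕ) (D : Finset V),
    IsColoring G c ∧ UpColorDominating G c D ∧ ∑ d ∈ D, c d = w}

/-- a certificate -/
def Cert {V : Type} (G : SimpleGraph V) (k : ℕ) : Prop :=
  ∃ (c : V → ℕ) (D : Finset V), IsColoring G c ∧ UpColorDominating G c D ∧ ∑ d ∈ D, c d ≤ k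

theorem cert_id {n : ℕ} (G : SimpleGraph (Fin n)) : Cert G (n * (n + 1)) := by
  refine ⟨fun v => (v : ℕ) + 1, Finset.univ, ?_, ⟨?_, ?_⟩, ?_⟩
  · intro u v huv h1
    exact huv.ne (Fin.ext (by simpa using h1))
  · intro v _
    simp
  · intro v hv
    exact absurd (Finset.mem_univ v) hv
  · have h1 : ∑ d : Fin n, ((d : ℕ) + 1) ≤ ∑ _d : Fin n, (n + 1) :=
      Finset.sum_le_sum (fun d _ => by have := d.2; omega)
    simpa using h1

theorem omega_le_iff {n : ℕ} (G : SimpleGraph (Fin n)) (k : ℕ) : OmegaUC G ≤ k ↔ Cert G k := by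
  classical
  constructor
  · intro h
    have hne : {w | ∃ (c : Fin n → ℕ) (D : Finset (Fin n)),
        IsColoring G c ∧ UpColorDominating G c D ∧ ∑ d ∈ D, c d = w}.Nonempty := by
      obtain ⟨c, D, h1, h2, _⟩ := cert_id G
      exact ⟨_, c, D, h1, h2, rfl⟩
    obtain ⟨c, D, h1, h2, h3⟩ := Nat.sInf_mem hne
    refine ⟨c, D, h1, h2, ?_⟩
    rw [h3]
    exact h
  · rintro ⟨c, D, h1, h2, h3⟩
    have h4 : OmegaUC G ≤ ∑ d ∈ D, c d := Nat.sInf_le ⟨c, D, h1, h2, rfl⟩
    exact h4.trans h3

theorem exists_opt (B n : ℕ) (ent : ℕ → ℕ → Bool) {Q : List (ℕ × ℕ)} (hQ : Q ≠ []) (A : Finset ℕ)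
    (g : ℕ → ℕ × ℕ → ℕ) (acc : ℕ) : ∃ x, Opt B n ent Q A g acc x := by
  have hne : {y | ∃ σ : ℕ → ℕ × ℕ, (∀ v, σ v ∈ Q) ∧ min B (acc + Tot B n ent A g σ) = y}.Nonempty := by
    obtain ⟨q, hq⟩ := List.exists_mem_of_ne_nil _ hQ
    exact ⟨_, fun _ => q, fun _ => hq, rfl⟩
  exact ⟨_, Nat.sInf_mem hne, fun σ hσ => Nat.sInf_le ⟨σ, hσ, rfl⟩⟩

theorem opt_le {X : FG} {x : ℕ} (hO : Opt (BB X.n) X.n (fun u v => X.mat.ent false u v) (Qs X.n)
    (Finset.range X.n) (cst X.mat) 0 x) : x ≤ OmegaUC X.G := by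
  classical
  obtain ⟨c, D, hc, hD, hw⟩ := (omega_le_iff X.G _).1 (le_refl (OmegaUC X.G))
  have hO' : OmegaUC X.G ≤ X.n * (X.n + 1) := (omega_le_iff X.G _).2 (cert_id X.G)
  have hcD : ∀ v ∈ D, c v ≤ X.n * (X.n + 1) := fun v hv =>
    ((Finset.single_le_sum (f := c) (fun i _ => Nat.zero_le _) hv).trans hw).trans hO'
  have hcA : ∀ v, c v ≤ X.n * (X.n + 1) := by
    intro v
    by_cases hv : v ∈ D
    · exact hcD v hv
    · obtain ⟨d, hd, _, hlt⟩ := hD.2 v hv
      exact hlt.le.trans (hcD d hd)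
  choose dm hdm using hD.2
  obtain ⟨σ, hσD, hσN, hσ0⟩ : ∃ σ : ℕ → ℕ × ℕ, (∀ v : Fin X.n, v ∈ D → σ v = (c v, X.n)) ∧
      (∀ (v : Fin X.n) (hv : v ∉ D), σ v = (c v, (dm v hv : ℕ))) ∧
      ∀ v, ¬ v < X.n → σ v = (0, 0) := by
    refine ⟨fun v => if h : v < X.n then
      (c ⟨v, h⟩, if h' : (⟨v, h⟩ : Fin X.n) ∈ D then X.n else (dm ⟨v, h⟩ h' : ℕ)) else (0, 0),
      ?_, ?_, ?_⟩
    · intro v hv
      simp only [v.2, Fin.eta, hv, dif_pos]
    · intro v hv
      simp only [v.2, Fin.eta, dif_neg hv, dif_pos]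
    · intro v hv
      simp only [dif_neg hv]
  have hσ1 : ∀ v : Fin X.n, (σ v).1 = c v := by
    intro v
    by_cases hv : v ∈ D
    · rw [hσD v hv]
    · rw [hσN v hv]
  have hmem : ∀ v, σ v ∈ Qs X.n := by
    intro v
    unfold Qs
    rw [List.mem_product, List.mem_range, List.mem_range]
    by_cases hv : v < X.n
    · have h1 := hσ1 ⟨v, hv⟩
      have h2 := hcA ⟨v, hv⟩
      simp only at h1
      refine ⟨by omega, ?_⟩
      by_cases hvD : (⟨v, hv⟩ : Fin X.n) ∈ D
      · have := hσD _ hvD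
        simp only at this
        rw [this]
        simp
      · have := hσN _ hvD
        simp only at this
        rw [this]
        have := (dm ⟨v, hv⟩ hvD).2
        simp only
        omega
    · rw [hσ0 v hv]
      simp only
      omega
  refine (hO.2 σ hmem).trans ((min_le_right _ _).trans ?_)
  rw [zero_add]
  refine le_trans ?_ hw
  unfold Tot
  have hpen : ∑ u ∈ Finset.range X.n, ∑ v ∈ Finset.range X.n,
      (if X.mat.ent false u v = true then fpen (BB X.n) X.n (σ u) (σ v) v else 0) = 0 := by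
    refine Finset.sum_eq_zero (fun u hu => Finset.sum_eq_zero (fun v hv => ?_))
    rw [Finset.mem_range] at hu hv
    split_ifs with he
    · have ha := (X.ent_iff ⟨u, hu⟩ ⟨v, hv⟩).1 he
      have h1 : (σ u).1 ≠ (σ v).1 := by
        have e1 := hσ1 ⟨u, hu⟩
        have e2 := hσ1 ⟨v, hv⟩
        simp only at e1 e2
        rw [e1, e2]
        exact hc _ _ ha
      unfold fpen
      rw [if_neg h1, zero_add, if_neg]
      intro hcon
      rw [Bool.and_eq_true, decide_eq_true_eq, Bool.not_eq_true', Bool.and_eq_false_iff,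
        decide_eq_false_iff_not, decide_eq_false_iff_not] at hcon
      obtain ⟨hc1, hc2⟩ := hcon
      by_cases huD : (⟨u, hu⟩ : Fin X.n) ∈ D
      · have := hσD _ huD
        simp only at this
        rw [this] at hc1
        simp only at hc1
        omega
      · have e1 := hσN _ huD
        simp only at e1
        rw [e1] at hc1
        simp only at hc1
        have e3 : dm ⟨u, hu⟩ huD = ⟨v, hv⟩ := Fin.ext hc1
        have e4 := hdm ⟨u, hu⟩ huD
        rw [e3] at e4
        have e5 := hσD _ e4.1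
        simp only at e5
        rw [e5, e1] at hc2
        simp only at hc2
        rcases hc2 with hc2 | hc2
        · exact hc2 trivial
        · exact hc2 e4.2.2
    · rfl
  rw [hpen, add_zero, Finset.sum_range]
  have h1 : ∑ d ∈ D, c d = ∑ v : Fin X.n, (if v ∈ D then c v else 0) := by
    rw [Finset.sum_ite_mem, Finset.univ_inter]
  rw [h1]
  refine Finset.sum_le_sum (fun v _ => ?_)
  unfold cst
  by_cases hv : v ∈ D
  · rw [hσD v hv, if_pos hv]
    simp only [FG.mat_n, if_true]
    rw [if_neg (hD.1 v hv)]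
    exact min_le_right _ _
  · rw [hσN v hv, if_neg hv]
    have h2 := (dm v hv).2
    have h3 := (X.ent_iff v (dm v hv)).2 (hdm v hv).2.1
    simp only [FG.mat_n]
    rw [if_neg (by omega), if_pos h3]

theorem opt_ge {X : FG} {x : ℕ} (hO : Opt (BB X.n) X.n (fun u v => X.mat.ent false u v) (Qs X.n)
    (Finset.range X.n) (cst X.mat) 0 x) : OmegaUC X.G ≤ x := by
  classical
  have hO' : OmegaUC X.G ≤ X.n * (X.n + 1) := (omega_le_iff X.G _).2 (cert_id X.G)
  have hxle := opt_le hO
  obtain ⟨σ, _, hσ⟩ := hO.1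
  rw [zero_add] at hσ
  have hB : BB X.n = X.n * (X.n + 1) + 1 := rfl
  have hT : Tot (BB X.n) X.n (fun u v => X.mat.ent false u v) (Finset.range X.n) (cst X.mat) σ
      = x := by
    rcases min_choice (BB X.n) (Tot (BB X.n) X.n (fun u v => X.mat.ent false u v)
      (Finset.range X.n) (cst X.mat) σ) with h | h
    · rw [h] at hσ
      omega
    · rw [h] at hσ
      exact hσ
  have hxB : x < BB X.n := by omega
  have hT' : ∑ v ∈ Finset.range X.n, cst X.mat v (σ v) + ∑ u ∈ Finset.range X.n,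
      ∑ v ∈ Finset.range X.n,
        (if X.mat.ent false u v = true then fpen (BB X.n) X.n (σ u) (σ v) v else 0) = x := hT
  clear hT
  have hcst : ∀ v < X.n, cst X.mat v (σ v) < BB X.n := by
    intro v hv
    have h1 := Finset.single_le_sum (f := fun v => cst X.mat v (σ v)) (fun i _ => Nat.zero_le _)
      (Finset.mem_range.2 hv)
    have h2 : cst X.mat v (σ v) ≤ ∑ v ∈ Finset.range X.n, cst X.mat v (σ v) := h1
    omega
  have hpen : ∀ u < X.n, ∀ v < X.n, X.mat.ent false u v = true →
      fpen (BB X.n) X.n (σ u) (σ v) v < BB X.n := by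
    intro u hu v hv he
    have h1 := Finset.single_le_sum (f := fun u => ∑ v ∈ Finset.range X.n,
      (if X.mat.ent false u v = true then fpen (BB X.n) X.n (σ u) (σ v) v else 0))
      (fun i _ => Nat.zero_le _) (Finset.mem_range.2 hu)
    have h2 := Finset.single_le_sum (f := fun v =>
      (if X.mat.ent false u v = true then fpen (BB X.n) X.n (σ u) (σ v) v else 0))
      (fun i _ => Nat.zero_le _) (Finset.mem_range.2 hv)
    have h3 : (if X.mat.ent false u v = true then fpen (BB X.n) X.n (σ u) (σ v) v else 0) =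
      fpen (BB X.n) X.n (σ u) (σ v) v := if_pos he
    have h4 : ∑ v ∈ Finset.range X.n,
      (if X.mat.ent false u v = true then fpen (BB X.n) X.n (σ u) (σ v) v else 0) ≤
      ∑ u ∈ Finset.range X.n, ∑ v ∈ Finset.range X.n,
      (if X.mat.ent false u v = true then fpen (BB X.n) X.n (σ u) (σ v) v else 0) := h1
    have h5 : (if X.mat.ent false u v = true then fpen (BB X.n) X.n (σ u) (σ v) v else 0) ≤
      ∑ v ∈ Finset.range X.n,
      (if X.mat.ent false u v = true then fpen (BB X.n) X.n (σ u) (σ v) v else 0) := h2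
    rw [h3] at h5
    omega
  rw [omega_le_iff]
  refine ⟨fun v => (σ v).1, Finset.univ.filter (fun v => (σ v).2 = X.n), ?_, ⟨?_, ?_⟩, ?_⟩
  · intro u v huv hcon
    have h1 := hpen u u.2 v v.2 ((X.ent_iff u v).2 huv)
    unfold fpen at h1
    rw [if_pos hcon] at h1
    omega
  · intro v hv
    rw [Finset.mem_filter] at hv
    have h1 := hcst v v.2
    unfold cst at h1
    rw [FG.mat_n, if_pos hv.2] at h1
    intro hcon
    rw [if_pos hcon] at h1
    omega
  · intro v hv
    have hv' : (σ v).2 ≠ X.n := fun h => hv (by rw [Finset.mem_filter]; exact ⟨Finset.mem_univ _, h⟩)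
    have h1 := hcst v v.2
    unfold cst at h1
    rw [FG.mat_n, if_neg hv'] at h1
    have he : X.mat.ent false v (σ v).2 = true := by
      by_contra hcon
      rw [if_neg hcon] at h1
      omega
    have hlt : (σ v).2 < X.n := by
      by_contra hcon
      rw [ent_out _ _ _ (Or.inr hcon)] at he
      exact absurd he (by simp)
    have h2 := hpen v v.2 _ hlt he
    unfold fpen at h2
    have h3 : (decide ((σ v).2 = (σ v).2) && !(decide ((σ (σ v).2).2 = X.n) &&
        decide ((σ v).1 < (σ (σ v).2).1))) ≠ true := by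
      intro hcon
      rw [if_pos hcon] at h2
      omega
    have h4 : (σ (σ v).2).2 = X.n ∧ (σ v).1 < (σ (σ v).2).1 := by
      by_contra hcon
      apply h3
      rw [not_and_or] at hcon
      simpa using hcon
    exact ⟨⟨_, hlt⟩, by rw [Finset.mem_filter]; exact ⟨Finset.mem_univ _, h4.1⟩,
      (X.ent_iff v ⟨_, hlt⟩).1 he, h4.2⟩
  · refine le_trans ?_ (le_of_eq hT')
    refine le_trans ?_ (Nat.le_add_right _ _)
    rw [Finset.sum_range, Finset.sum_filter]
    refine Finset.sum_le_sum (fun v _ => ?_)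
    split_ifs with hv
    · have h1 := hcst v v.2
      unfold cst at h1 ⊢
      rw [FG.mat_n, if_pos hv] at h1 ⊢
      split_ifs at h1 ⊢ with h0
      · omega
      · rcases min_choice (BB X.n) (σ v).1 with h | h
        · rw [h] at h1
          omega
        · rw [h]
    · exact Nat.zero_le _

theorem alg_eq {X : FG} (hX : X.G.IsAcyclic) : alg X.mat = OmegaUC X.G := by
  obtain ⟨x, hx⟩ := exists_opt (BB X.n) X.n (fun u v => X.mat.ent false u v) (Qs_ne X.n)
    (Finset.range X.n) (cst X.mat) 0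
  rw [alg_spec hX hx]
  exact le_antisymm (opt_le hx) (opt_ge hx)

theorem mat_poly : NPC.Poly (fun X : FG => X.mat) := by
  have h := NPC.Poly.id (α := LMat Bool)
  obtain ⟨c, p, h⟩ := h
  exact ⟨c, p, fun X => h X.mat⟩

/-- **Main theorem.** There is a polynomial time computable function on bit strings (a Turing
machine in the sense of Mathlib) which maps the code of a finite tree, or more generally of a
finite forest, to the code of its up-color domination weight. -/
theorem result : ∃ F : List Bool → List Bool, PolyTime F ∧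
    (∀ X : FG, X.G.IsTree → F (bits X) = bits (OmegaUC X.G)) ∧
    ∀ X : FG, X.G.IsAcyclic → F (bits X) = bits (OmegaUC X.G) := by
  have key : ∀ X : FG, X.G.IsAcyclic →
      (unbits (LMat Bool) (bits X)).map (fun a => alg a) = some (OmegaUC X.G) := by
    intro X hX
    have h1 : unbits (LMat Bool) (bits X) = some X.mat := unbits_bits X.mat
    rw [h1, ← alg_eq hX]
    rfl
  refine ⟨_, polyTime_opt (NPC.Poly.optMap (o := unbits (LMat Bool)) (f := fun _ a => alg a)
    poly_unbits (alg_poly.comp (NPC.Poly.snd NPC.Poly.id))), ?_, ?_⟩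
  · intro X hX
    beta_reduce
    rw [key X hX.isAcyclic]
  · intro X hX
    beta_reduce
    rw [key X hX]

end Pool.Agent.Results.MP_07a0c6_lc.TreesPolynomial
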