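import Pool.Agent.Results.MP_07a0c6_lc.BipartiteNPComplete
import Pool.Agent.Results.MP_07a0c6_lc.IntervalNPComplete
import Pool.Agent.Results.MP_07a0c6_lc.TreesPolynomial

/-!
# The complexity of the up-color domination weight of trees, bipartite graphs, interval graphs

This answers all three parts of Q1.
-/

namespace Pool.Agent.Results.MP_07a0c6_lc.AllThreeClasses

open Pool.Agent.NPC Pool.Agent.V11229

/-- `c` is a coloring of `G` with the colors `0, 1, 2, …`. -/
def IsColoring {V : Type} (G : SimpleGraph V) (c : V → ℕ) : Prop := ∀ u v, G.Adj u v → c u ≠ c v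

/-- `D` is up-color dominating for `(G, c)`. -/
def UpColorDominating {V : Type} (G : SimpleGraph V) (c : V → ℕ) (D : Finset V) : Prop :=
  (∀ v ∈ D, c v ≠ 0) ∧ ∀ v, v ∉ D → ∃ d ∈ D, G.Adj v d ∧ c v < c d

/-- The up-color domination weight `Ω_uc(G)`: the minimum, over all colorings `c` of `G` and all
up-color dominating sets `D` for `(G, c)`, of the weight of `D`. -/
noncomputable def OmegaUC {V : Type} (G : SimpleGraph V) : ℕ :=
  sInf {w | ∃ (c : V → ℕ) (D : Finset V),
    IsColoring G c ∧ UpColorDominating G c D ∧ ∑ d ∈ D, c d = w}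

/-- Interval graphs: intersection graphs of closed intervals of the real line. -/
def IsInterval {V : Type} (G : SimpleGraph V) : Prop :=
  ∃ lo hi : V → ℝ, (∀ v, lo v ≤ hi v) ∧
    ∀ u v, G.Adj u v ↔ u ≠ v ∧ (Set.Icc (lo u) (hi u) ∩ Set.Icc (lo v) (hi v)).Nonempty

/-- UCW for bipartite graphs: the instance is `(G, k)`. -/
def UCWBipartite (I : FG × ℕ) : Prop := I.1.G.IsBipartite ∧ 0 < I.2 ∧ OmegaUC I.1.G ≤ I.2

/-- UCW for interval graphs: the instance is `(G, k)`. -/
def UCWInterval (I : FG × ℕ) : Prop := IsInterval I.1.G ∧ 0 < I.2 ∧ OmegaUC I.1.G ≤ I.2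

/-- **Main theorem**, all three parts of Q1.
(a) The up-color domination weight of a tree is computable in polynomial time: a polynomial time
function on bit strings maps the code of every finite tree (even forest) to the code of its
weight.
(b) UCW for bipartite graphs is `NP`-complete.
(c) UCW for interval graphs is `NP`-complete. -/
theorem result :
    (∃ F : List Bool → List Bool, PolyTime F ∧
      (∀ X : FG, X.G.IsTree → F (bits X) = bits (OmegaUC X.G)) ∧
      ∀ X : FG, X.G.IsAcyclic → F (bits X) = bits (OmegaUC X.G)) ∧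
    (InNPP UCWBipartite ∧ NPHardP UCWBipartite) ∧
    (InNPP UCWInterval ∧ NPHardP UCWInterval) :=
  ⟨TreesPolynomial.result, BipartiteNPComplete.result, IntervalNPComplete.result⟩

end Pool.Agent.Results.MP_07a0c6_lc.AllThreeClasses
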