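import Pool.Agent.V11229.FG
import Pool.Agent.V11229.XCover
import Pool.Agent.V11229.CutCore

/-!
# The up-color domination weight of bipartite graphs: `NP`-completeness
-/

namespace Pool.Agent.Results.MP_07a0c6_lc.BipartiteNPComplete

open Pool.Agent.NPC Pool.Agent.NPC.H632 Pool.Agent.V11229

/-- `c` is a coloring of `G` with the colors `0, 1, 2, …`. -/
def IsColoring {V : Type} (G : SimpleGraph V) (c : V → ℕ) : Prop := ∀ u v, G.Adj u v → c u ≠ c v

/-- `D` is up-color dominating for `(G, c)`. -/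
def UpColorDominating {V : Type} (G : SimpleGraph V) (c : V → ℕ) (D : Finset V) : Prop :=
  (∀ v ∈ D, c v ≠ 0) ∧ ∀ v, v ∉ D → ∃ d ∈ D, G.Adj v d ∧ c v < c d

/-- The up-color domination weight `Ω_uc(G)`: the minimum, over all colorings `c` of `G` and all
up-color dominating sets `D` for `(G, c)`, of the weight of `D`. -/
noncomputable def OmegaUC {V : Type} (G : SimpleGraph V) : ℕ :=
  sInf {w | ∃ (c : V → ℕ) (D : Finset V),
    IsColoring G c ∧ UpColorDominating G c D ∧ ∑ d ∈ D, c d = w}

/-- UCW for bipartite graphs: the instance is `(G, k)`. -/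
def UCWBipartite (I : FG × ℕ) : Prop := I.1.G.IsBipartite ∧ 0 < I.2 ∧ OmegaUC I.1.G ≤ I.2

/-- a certificate -/
def Cert {V : Type} (G : SimpleGraph V) (k : ℕ) : Prop :=
  ∃ (c : V → ℕ) (D : Finset V), IsColoring G c ∧ UpColorDominating G c D ∧ ∑ d ∈ D, c d ≤ k

theorem omega_le_iff {n : ℕ} (G : SimpleGraph (Fin n)) (k : ℕ) : OmegaUC G ≤ k ↔ Cert G k := by
  classical
  constructor
  · intro h
    have hne : {w | ∃ (c : Fin n → ℕ) (D : Finset (Fin n)),
        IsColoring G c ∧ UpColorDominating G c D ∧ ∑ d ∈ D, c d = w}.Nonempty := by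
      refine ⟨_, fun v => (v : ℕ) + 1, Finset.univ, ?_, ⟨?_, ?_⟩, rfl⟩
      · intro u v huv h1
        exact huv.ne (Fin.ext (by simpa using h1))
      · intro v _
        simp
      · intro v hv
        exact absurd (Finset.mem_univ v) hv
    obtain ⟨c, D, h1, h2, h3⟩ := Nat.sInf_mem hne
    refine ⟨c, D, h1, h2, ?_⟩
    rw [h3]
    exact h
  · rintro ⟨c, D, h1, h2, h3⟩
    have h4 : OmegaUC G ≤ ∑ d ∈ D, c d := Nat.sInf_le ⟨c, D, h1, h2, rfl⟩
    exact h4.trans h3

theorem Cert.of_iso {V W : Type} {G : SimpleGraph V} {H : SimpleGraph W} (e : G ≃g H) {k : ℕ}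
    (h : Cert G k) : Cert H k := by
  classical
  obtain ⟨c, D, h1, h2, h3⟩ := h
  refine ⟨fun w => c (e.symm w), D.image e, ?_, ⟨?_, ?_⟩, ?_⟩
  · intro u v huv
    exact h1 _ _ (e.symm.map_adj_iff.2 huv)
  · intro v hv
    obtain ⟨u, hu, rfl⟩ := Finset.mem_image.1 hv
    simpa using h2.1 u hu
  · intro v hv
    have hv' : e.symm v ∉ D := fun h => hv (Finset.mem_image.2 ⟨_, h, by simp⟩)
    obtain ⟨d, hd, ha, hlt⟩ := h2.2 _ hv'
    refine ⟨e d, Finset.mem_image_of_mem _ hd, ?_, by simpa using hlt⟩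
    rw [← e.symm.map_adj_iff]
    simpa using ha
  · rw [Finset.sum_image (fun a _ b _ hab => e.injective hab)]
    simpa using h3

/-! ### Membership in `NP` -/

/-- the weight -/
def wt (M : LMat Bool) (c : List ℕ) (d : List Bool) : ℕ :=
  ((List.range M.n).map (fun i => if d.getD i false = true then c.getD i 0 else 0)).sum

/-- the verifier -/
def ver (x : (LMat Bool × ℕ) × (List Bool × (List ℕ × List Bool))) : Bool :=
  (List.range x.1.1.n).all (fun i =>
    (List.range x.1.1.n).all (fun j => !(x.1.1.ent false i j) ||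
      (!(decide (x.2.1.getD i false = x.2.1.getD j false)) &&
        !(decide (x.2.2.1.getD i 0 = x.2.2.1.getD j 0)))) &&
    ((x.2.2.2.getD i false && !(decide (x.2.2.1.getD i 0 = 0))) ||
      (!(x.2.2.2.getD i false) && (List.range x.1.1.n).any (fun j => x.2.2.2.getD j false &&
        (x.1.1.ent false i j && decide (x.2.2.1.getD i 0 < x.2.2.1.getD j 0)))))) &&
  (decide (0 < x.1.2) && decide (wt x.1.1 x.2.2.1 x.2.2.2 ≤ x.1.2))

theorem wt_poly {α : Type} [TEnc α] {M : α → LMat Bool} {c : α → List ℕ} {d : α → List Bool}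
    (hM : Poly M) (hc : Poly c) (hd : Poly d) : Poly (fun a => wt (M a) (c a) (d a)) := by
  unfold wt
  refine NPC.Poly.sum (NPC.Poly.map (F := fun a i =>
    if (d a).getD i false = true then (c a).getD i 0 else 0) (UPoly.range (UPoly.lmat_n hM)) ?_)
  fun_prop

attribute [local fun_prop] wt_poly

theorem ver_poly : Poly ver := by
  unfold ver
  refine NPC.Poly.and ?_ (by fun_prop)
  refine Poly.allRange
    (n := fun x : (LMat Bool × ℕ) × (List Bool × (List ℕ × List Bool)) => x.1.1.n)
    (p := fun x i => (List.range x.1.1.n).all (fun j => !(x.1.1.ent false i j) ||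
      (!(decide (x.2.1.getD i false = x.2.1.getD j false)) &&
        !(decide (x.2.2.1.getD i 0 = x.2.2.1.getD j 0)))) &&
    ((x.2.2.2.getD i false && !(decide (x.2.2.1.getD i 0 = 0))) ||
      (!(x.2.2.2.getD i false) && (List.range x.1.1.n).any (fun j => x.2.2.2.getD j false &&
        (x.1.1.ent false i j && decide (x.2.2.1.getD i 0 < x.2.2.1.getD j 0))))))
    (UPoly.lmat_n (by fun_prop)) ?_
  refine NPC.Poly.and ?_ (NPC.Poly.or (by fun_prop) (NPC.Poly.and (by fun_prop) ?_))
  · exact Poly.allRange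
      (n := fun x : ((LMat Bool × ℕ) × (List Bool × (List ℕ × List Bool))) × ℕ => x.1.1.1.n)
      (p := fun x j => !(x.1.1.1.ent false x.2 j) ||
        (!(decide (x.1.2.1.getD x.2 false = x.1.2.1.getD j false)) &&
        !(decide (x.1.2.2.1.getD x.2 0 = x.1.2.2.1.getD j 0))))
      (UPoly.lmat_n (by fun_prop)) (by fun_prop)
  · exact Poly.anyRange
      (n := fun x : ((LMat Bool × ℕ) × (List Bool × (List ℕ × List Bool))) × ℕ => x.1.1.1.n)
      (p := fun x j => x.1.2.2.2.getD j false &&
        (x.1.1.1.ent false x.2 j && decide (x.1.2.2.1.getD x.2 0 < x.1.2.2.1.getD j 0)))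
      (UPoly.lmat_n (by fun_prop)) (by fun_prop)

theorem sum_map_range (n : ℕ) (f : ℕ → ℕ) : ((List.range n).map f).sum = ∑ i : Fin n, f i := by
  rw [Fin.sum_univ_eq_sum_range, ← List.sum_toFinset _ List.nodup_range]
  refine Finset.sum_congr ?_ fun _ _ => rfl
  ext i; simp

theorem wt_eq (X : FG) (c : List ℕ) (d : List Bool) : wt X.mat c d =
    ∑ v ∈ Finset.univ.filter (fun v : Fin X.n => d.getD v false = true), c.getD v 0 := by
  unfold wt
  rw [sum_map_range, Finset.sum_filter]
  rfl

theorem ver_iff (X : FG) (k : ℕ) (s : List Bool) (c : List ℕ) (d : List Bool) :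
    ver ((X.mat, k), (s, (c, d))) = true ↔
    (∀ u v : Fin X.n, X.G.Adj u v → s.getD u false ≠ s.getD v false) ∧
    IsColoring X.G (fun v : Fin X.n => c.getD v 0) ∧
    UpColorDominating X.G (fun v : Fin X.n => c.getD v 0)
      (Finset.univ.filter (fun v : Fin X.n => d.getD v false = true)) ∧
    0 < k ∧
    ∑ v ∈ Finset.univ.filter (fun v : Fin X.n => d.getD v false = true), c.getD v 0 ≤ k := by
  simp only [ver, Bool.and_eq_true, List.all_eq_true, List.mem_range, List.any_eq_true,
    Bool.or_eq_true, decide_eq_true_eq, Bool.not_eq_true', decide_eq_false_iff_not, wt_eq,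
    FG.mat_n]
  unfold IsColoring UpColorDominating
  constructor
  · rintro ⟨h, hk, hs⟩
    refine ⟨?_, ?_, ⟨?_, ?_⟩, hk, hs⟩
    · intro u v huv
      rcases (h u u.isLt).1 v v.isLt with h1 | h1
      · rw [(X.ent_iff u v).2 huv] at h1
        exact absurd h1 (by simp)
      · exact h1.1
    · intro u v huv
      rcases (h u u.isLt).1 v v.isLt with h1 | h1
      · rw [(X.ent_iff u v).2 huv] at h1
        exact absurd h1 (by simp)
      · exact h1.2
    · intro v hv
      rw [Finset.mem_filter] at hv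
      rcases (h v v.isLt).2 with h1 | h1
      · exact h1.2
      · rw [hv.2] at h1
        exact absurd h1.1 (by simp)
    · intro v hv
      rw [Finset.mem_filter, not_and] at hv
      rcases (h v v.isLt).2 with h1 | h1
      · exact absurd h1.1 (hv (Finset.mem_univ _))
      · obtain ⟨j, hj, h2, h3, h4⟩ := h1.2
        exact ⟨⟨j, hj⟩, by simpa using h2, (X.ent_iff v ⟨j, hj⟩).1 h3, h4⟩
  · rintro ⟨h1, h2, ⟨h3, h4⟩, hk, hs⟩
    refine ⟨fun i hi => ⟨fun j hj => ?_, ?_⟩, hk, hs⟩
    · by_cases ha : X.G.Adj ⟨i, hi⟩ ⟨j, hj⟩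
      · exact Or.inr ⟨h1 _ _ ha, h2 _ _ ha⟩
      · left
        rw [← X.ent_iff ⟨i, hi⟩ ⟨j, hj⟩] at ha
        simpa using ha
    · by_cases hd : d.getD i false = true
      · exact Or.inl ⟨hd, h3 ⟨i, hi⟩ (by simpa using hd)⟩
      · right
        refine ⟨by simpa using hd, ?_⟩
        obtain ⟨w, hw, h5, h6⟩ := h4 ⟨i, hi⟩ (by simpa using hd)
        exact ⟨w, w.isLt, by simpa using hw, (X.ent_iff ⟨i, hi⟩ w).2 h5, h6⟩

theorem sz_ofFn_le {n : ℕ} (f : Fin n → ℕ) (k : ℕ) (hf : ∀ i, f i ≤ k) :
    sz (List.ofFn f) ≤ n * (2 * sz k + 1) + 1 := by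
  have h := sz_le_length_mul (List.ofFn f) (2 * sz k) (by
    intro a ha
    rw [List.mem_ofFn] at ha
    obtain ⟨i, rfl⟩ := ha
    exact sz_nat_mono_le (hf i))
  simpa using h

theorem ofFn_getD {n : ℕ} (f : Fin n → ℕ) (i : Fin n) : (List.ofFn f).getD i 0 = f i := by
  simp [List.getD_eq_getElem?_getD]

theorem bip_iff {n : ℕ} (G : SimpleGraph (Fin n)) : G.IsBipartite ↔
    ∃ X : Set (Fin n), ∀ u v, G.Adj u v → ¬ (u ∈ X ↔ v ∈ X) := by
  classical
  constructor
  · rintro ⟨C⟩
    refine ⟨{v | C v = 0}, fun u v huv h => ?_⟩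
    have h1 : C u ≠ C v := C.valid huv
    have h2 : C u = 0 ↔ C v = 0 := h
    apply h1
    have e1 : C u = 0 ∨ C u = 1 := by omega
    have e2 : C v = 0 ∨ C v = 1 := by omega
    rcases e1 with e1 | e1
    · rw [e1, h2.1 e1]
    · rcases e2 with e2 | e2
      · rw [h2.2 e2, e2]
      · rw [e1, e2]
  · rintro ⟨X, hX⟩
    refine ⟨SimpleGraph.Coloring.mk (fun v => if v ∈ X then (0 : Fin 2) else 1) ?_⟩
    intro u v huv h
    apply hX u v huv
    by_cases h1 : u ∈ X <;> by_cases h2 : v ∈ X <;> simp [h1, h2] at h ⊢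

/-- The problem is in `NP`. -/
theorem inNPP_ucw : InNPP UCWBipartite := by
  classical
  refine inNPP_FG ver_poly (10 * Polynomial.X * Polynomial.X + 10 * Polynomial.X + 10) ?_
  rintro ⟨X, k⟩
  unfold UCWBipartite
  simp only
  rw [omega_le_iff, bip_iff]
  constructor
  · rintro ⟨⟨Y, hY⟩, hk, c, D, h1, h2, h3⟩
    have hcD : ∀ v ∈ D, c v ≤ k := fun v hv =>
      (Finset.single_le_sum (f := c) (fun _ _ => Nat.zero_le _) hv).trans h3
    have hc : ∀ v, c v ≤ k := by
      intro v
      by_cases hv : v ∈ D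
      · exact hcD v hv
      · obtain ⟨d, hd, _, hlt⟩ := h2.2 v hv
        exact hlt.le.trans (hcD d hd)
    have hD2 : (Finset.univ.filter (fun v : Fin X.n => (indL (D : Set (Fin X.n))).getD v false =
        true)) = D := by
      ext v
      rw [Finset.mem_filter, indL_getD]
      simp
    have hc2 : (fun v : Fin X.n => (List.ofFn c).getD v 0) = c := funext (ofFn_getD c)
    refine ⟨(indL Y, (List.ofFn c, indL (D : Set (Fin X.n)))), ?_, ?_⟩
    · have e1 := sz_indL Y
      have e2 := sz_indL (D : Set (Fin X.n))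
      have e3 := sz_ofFn_le c k hc
      have e4 := sz_mat_gt X.mat
      rw [FG.mat_n] at e4
      rw [sz_pair, sz_pair, sz_pair]
      simp only [Polynomial.eval_add, Polynomial.eval_mul, Polynomial.eval_X,
        Polynomial.eval_ofNat]
      have e5 : X.n * (2 * sz k + 1) ≤ sz X.mat * (2 * sz k + 1) := Nat.mul_le_mul_right _ e4.le
      nlinarith
    · rw [ver_iff, hD2, hc2]
      refine ⟨?_, h1, h2, hk, ?_⟩
      · intro u v huv h
        apply hY u v huv
        rw [← indL_getD Y u, ← indL_getD Y v, h]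
      · exact h3
  · rintro ⟨⟨s, c, d⟩, _, h⟩
    rw [ver_iff] at h
    obtain ⟨h1, h2, h3, hk, h4⟩ := h
    refine ⟨⟨{v | s.getD v false = true}, fun u v huv h => h1 u v huv ?_⟩, hk, _, _, h2, h3, h4⟩
    rw [Bool.eq_iff_iff]
    exact h

/-! ### The reduction from exact cover by 3-sets -/

section Red

open Finset

/-- labels of the vertices: `(0,0)` is the hub, `(1,i)` are the leaves, `(2,j)` the triples,
`(3,e)` the elements -/
abbrev Lab : Type := ℕ × ℕ

/-- the edges, in one direction -/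
def adB (S : List (ℕ × ℕ × ℕ)) (x y : Lab) : Bool :=
  (decide (x.1 = 0) && (decide (y.1 = 1) || decide (y.1 = 2))) ||
  (decide (x.1 = 2) && (decide (y.1 = 3) && decide (y.2 ∈ el (S.getD x.2 (0, 0, 0)))))

/-- the list of the vertices -/
def vsL (m k : ℕ) : List Lab :=
  (0, 0) :: (((List.range 2).map (fun i => (1, i)) ++
    (List.range m).map (fun j => (2, j))) ++ (List.range k).map (fun e => (3, e)))

/-- the reduction -/
def red (I : List (ℕ × ℕ × ℕ) × ℕ) : FG × ℕ :=
  (FG.ofList (vsL I.1.length (min (3 * I.2) (3 * I.1.length))) (adB I.1), I.2 + 2)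

theorem red_poly : Poly red := by
  unfold red
  refine NPC.Poly.pair ?_ (by fun_prop)
  refine Poly.FG_ofList (vs := fun I : List (ℕ × ℕ × ℕ) × ℕ =>
    vsL I.1.length (min (3 * I.2) (3 * I.1.length)))
    (ad := fun I : List (ℕ × ℕ × ℕ) × ℕ => adB I.1) ?_ ?_
  · unfold vsL
    have h1 : UPoly (fun I : List (ℕ × ℕ × ℕ) × ℕ => I.1.length) := UPoly.length (by fun_prop)
    have h3 : Poly (fun I : List (ℕ × ℕ × ℕ) × ℕ => List.range I.1.length) := UPoly.range h1
    have h4 : Poly (fun I : List (ℕ × ℕ × ℕ) × ℕ =>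
        List.range (min (3 * I.2) (3 * I.1.length))) := by
      refine UPoly.range (UPoly.of_le (n := fun I => 3 * I.1.length) (by fun_prop)
        (UPoly.mul (UPoly.const 3) h1) (fun I => min_le_right _ _))
    fun_prop
  · unfold adB el
    fun_prop

variable (S : List (ℕ × ℕ × ℕ)) (q : ℕ)

/-- the vertices, as a type -/
abbrev VT : Type := Unit ⊕ (Fin 2 ⊕ (Fin S.length ⊕ Fin (3 * q)))

/-- the labels -/
def lab : VT S q → Lab
  | Sum.inl _ => (0, 0)
  | Sum.inr (Sum.inl i) => (1, i)
  | Sum.inr (Sum.inr (Sum.inl j)) => (2, j)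
  | Sum.inr (Sum.inr (Sum.inr e)) => (3, e)

theorem lab_injective : Function.Injective (lab S q) := by
  rintro (u | (i | (j | e))) (u' | (i' | (j' | e'))) h <;>
    simp [lab] at h ⊢
  · exact Fin.ext h
  · exact Fin.ext h
  · exact Fin.ext h

theorem vsL_nodup (m k : ℕ) : (vsL m k).Nodup := by
  unfold vsL
  rw [List.nodup_cons, List.nodup_append, List.nodup_append]
  refine ⟨?_, ⟨?_, ?_, ?_⟩, ?_, ?_⟩
  · simp
  · refine List.Nodup.map ?_ List.nodup_range
    intro a b h
    simpa using h
  · refine List.Nodup.map ?_ List.nodup_range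
    intro a b h
    simpa using h
  · intro a ha b hb
    simp only [List.mem_map, List.mem_range] at ha hb
    obtain ⟨v, _, rfl⟩ := ha
    obtain ⟨w, _, rfl⟩ := hb
    simp
  · refine List.Nodup.map ?_ List.nodup_range
    intro a b h
    simpa using h
  · intro a ha b hb
    simp only [List.mem_append, List.mem_map, List.mem_range] at ha hb
    obtain ⟨w, _, rfl⟩ := hb
    rcases ha with ⟨v, _, rfl⟩ | ⟨v, _, rfl⟩ <;> simp

theorem mem_vsL (z : Lab) : z ∈ vsL S.length (3 * q) ↔ ∃ x : VT S q, lab S q x = z := by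
  constructor
  · intro h
    unfold vsL at h
    simp only [List.mem_cons, List.mem_append, List.mem_map, List.mem_range] at h
    rcases h with h | (⟨i, hi, rfl⟩ | ⟨j, hj, rfl⟩) | ⟨e, h, rfl⟩
    · exact ⟨Sum.inl (), h.symm⟩
    · exact ⟨Sum.inr (Sum.inl ⟨i, hi⟩), rfl⟩
    · exact ⟨Sum.inr (Sum.inr (Sum.inl ⟨j, hj⟩)), rfl⟩
    · exact ⟨Sum.inr (Sum.inr (Sum.inr ⟨e, h⟩)), rfl⟩
  · rintro ⟨x, rfl⟩
    unfold vsL
    simp only [List.mem_cons, List.mem_append, List.mem_map, List.mem_range]
    rcases x with u | (i | (j | e))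
    · left; rfl
    · right; left; left
      exact ⟨i, i.isLt, rfl⟩
    · right; left; right
      exact ⟨j, j.isLt, rfl⟩
    · right; right
      exact ⟨e, e.isLt, rfl⟩

/-- the graph on the vertex type -/
def HG : SimpleGraph (VT S q) where
  Adj x y := x ≠ y ∧ (adB S (lab S q x) (lab S q y) = true ∨ adB S (lab S q y) (lab S q x) = true)
  symm := ⟨fun _ _ h => ⟨h.1.symm, h.2.symm⟩⟩
  loopless := ⟨fun _ h => h.1 rfl⟩

variable {S q}

/-- the hub -/
abbrev hb : VT S q := Sum.inl ()
/-- the leaves -/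
abbrev lf (i : Fin 2) : VT S q := Sum.inr (Sum.inl i)
/-- the triples -/
abbrev tr (j : Fin S.length) : VT S q := Sum.inr (Sum.inr (Sum.inl j))
/-- the elements -/
abbrev em (x : Fin (3 * q)) : VT S q := Sum.inr (Sum.inr (Sum.inr x))

theorem a_hl (i) : (HG S q).Adj hb (lf i) := by simp [HG, adB, lab]
theorem a_ht (j) : (HG S q).Adj hb (tr j) := by simp [HG, adB, lab]
theorem a_hh (u) : ¬ (HG S q).Adj hb (Sum.inl u) := by simp [HG]
theorem a_he (x) : ¬ (HG S q).Adj hb (em x) := by simp [HG, adB, lab]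
theorem a_ll (i i') : ¬ (HG S q).Adj (lf i) (lf i') := by simp [HG, adB, lab]
theorem a_lt (i j) : ¬ (HG S q).Adj (lf i) (tr j) := by simp [HG, adB, lab]
theorem a_le (i x) : ¬ (HG S q).Adj (lf i) (em x) := by simp [HG, adB, lab]
theorem a_tt (i j) : ¬ (HG S q).Adj (tr i) (tr j) := by simp [HG, adB, lab]
theorem a_ee (x y) : ¬ (HG S q).Adj (em x) (em y) := by simp [HG, adB, lab]
theorem a_te (j x) : (HG S q).Adj (tr j) (em x) ↔ (x : ℕ) ∈ el S[j] := by
  simp [HG, adB, lab, List.getD_eq_getElem?_getD]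

/-- a 2-coloring -/
def side : VT S q → Fin 2
  | Sum.inl _ => 0
  | Sum.inr (Sum.inl _) => 1
  | Sum.inr (Sum.inr (Sum.inl _)) => 1
  | Sum.inr (Sum.inr (Sum.inr _)) => 0

theorem bip : (HG S q).IsBipartite := by
  refine ⟨SimpleGraph.Coloring.mk side ?_⟩
  rintro (u | (i | (j | x))) (u' | (i' | (j' | x'))) h
  · exact absurd h (a_hh _)
  · simp [side]
  · simp [side]
  · exact absurd h (a_he _)
  · simp [side]
  · exact absurd h (a_ll _ _)
  · exact absurd h (a_lt _ _)
  · exact absurd h (a_le _ _)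
  · simp [side]
  · exact absurd h.symm (a_lt _ _)
  · exact absurd h (a_tt _ _)
  · simp [side]
  · exact absurd h.symm (a_he _)
  · exact absurd h.symm (a_le _ _)
  · simp [side]
  · exact absurd h (a_ee _ _)

/-- the coloring used for a cover -/
def col : VT S q → ℕ
  | Sum.inl _ => 2
  | Sum.inr (Sum.inl _) => 0
  | Sum.inr (Sum.inr (Sum.inl _)) => 1
  | Sum.inr (Sum.inr (Sum.inr _)) => 0

/-- Correctness of the reduction. -/
theorem core (h : PrX S q) : Cert (HG S q) (q + 2) ↔
    ∃ C : Finset (Fin S.length), C.card ≤ q ∧ ∀ e < 3 * q, ∃ i ∈ C, e ∈ el S[i] := by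
  classical
  have hq := h.q_pos
  constructor
  · rintro ⟨c, D, hc, hD, hw⟩
    by_contra hcon
    push Not at hcon
    -- the sum as a sum over all vertices
    have hsum : ∑ d ∈ D, c d = ∑ v : VT S q, (if v ∈ D then c v else 0) := by
      rw [Finset.sum_ite_mem, Finset.univ_inter]
    rw [hsum, Fintype.sum_sum_type, Fintype.sum_sum_type, Fintype.sum_sum_type, Fintype.sum_unique,
      Fin.sum_univ_two] at hw
    have hw' : (if (hb : VT S q) ∈ D then c hb else 0) +
        (((if (lf 0 : VT S q) ∈ D then c (lf 0) else 0) +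
          (if (lf 1 : VT S q) ∈ D then c (lf 1) else 0)) +
        (∑ j : Fin S.length, (if (tr j : VT S q) ∈ D then c (tr j) else 0) +
        ∑ e : Fin (3 * q), (if (em e : VT S q) ∈ D then c (em e) else 0))) ≤ q + 2 := hw
    clear hw
    generalize hX : (∑ j : Fin S.length, (if (tr j : VT S q) ∈ D then c (tr j) else 0)) = X at hw'
    generalize hY : (∑ e : Fin (3 * q), (if (em e : VT S q) ∈ D then c (em e) else 0)) = Y at hw'
    have hocc : ∀ e : Fin (3 * q), ∃ j : Fin S.length, (e : ℕ) ∈ el S[j] := by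
      intro e
      obtain ⟨t, ht, het⟩ := h.occ e e.isLt
      obtain ⟨i, hi, hi'⟩ := List.getElem_of_mem ht
      refine ⟨⟨i, hi⟩, ?_⟩
      have : S[(⟨i, hi⟩ : Fin S.length)] = t := hi'
      rw [this]
      exact het
    choose g hg using hocc
    set A : Finset (Fin S.length) := Finset.univ.filter (fun j => (tr j : VT S q) ∈ D) with hA
    set B : Finset (Fin (3 * q)) := Finset.univ.filter (fun e => (em e : VT S q) ∈ D) with hB
    have hcov : ∀ e < 3 * q, ∃ i ∈ A ∪ B.image g, e ∈ el S[i] := by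
      intro e he
      by_cases hd : (em ⟨e, he⟩ : VT S q) ∈ D
      · refine ⟨g ⟨e, he⟩, Finset.mem_union_right _ (Finset.mem_image_of_mem _ ?_), hg ⟨e, he⟩⟩
        rw [hB, Finset.mem_filter]
        exact ⟨Finset.mem_univ _, hd⟩
      · obtain ⟨d, hd1, hd2, _⟩ := hD.2 _ hd
        rcases d with u | (i | (j | x))
        · exact absurd hd2.symm (a_he _)
        · exact absurd hd2.symm (a_le _ _)
        · refine ⟨j, Finset.mem_union_left _ ?_, (a_te _ _).1 hd2.symm⟩
          rw [hA, Finset.mem_filter]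
          exact ⟨Finset.mem_univ _, hd1⟩
        · exact absurd hd2 (a_ee _ _)
    have hAB : q < A.card + B.card := by
      by_contra hle
      push Not at hle
      obtain ⟨e, he, hne⟩ := hcon (A ∪ B.image g)
        ((Finset.card_union_le _ _).trans ((Nat.add_le_add_left Finset.card_image_le _).trans hle))
      obtain ⟨i, hi, hei⟩ := hcov e he
      exact hne i hi hei
    have h1 : ∀ m : ℕ, (∀ j, (tr j : VT S q) ∈ D → m ≤ c (tr j)) →
        A.card * m ≤ ∑ j : Fin S.length, (if (tr j : VT S q) ∈ D then c (tr j) else 0) := by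
      intro m hm
      rw [← Finset.sum_filter, ← hA, ← smul_eq_mul]
      refine Finset.card_nsmul_le_sum _ _ _ ?_
      intro j hj
      rw [hA, Finset.mem_filter] at hj
      exact hm j hj.2
    have h2 : B.card ≤ ∑ e : Fin (3 * q), (if (em e : VT S q) ∈ D then c (em e) else 0) := by
      rw [← Finset.sum_filter, ← hB, Finset.card_eq_sum_ones]
      refine Finset.sum_le_sum ?_
      intro e he
      rw [hB, Finset.mem_filter] at he
      exact Nat.one_le_iff_ne_zero.2 (hD.1 _ he.2)
    have h3 := h1 1 (fun j hj => Nat.one_le_iff_ne_zero.2 (hD.1 _ hj))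
    have hhub : (hb : VT S q) ∈ D := by
      by_contra hh
      have hl : ∀ i, (lf i : VT S q) ∈ D := by
        intro i
        by_contra hi
        obtain ⟨d, hd1, hd2, _⟩ := hD.2 _ hi
        rcases d with u | (i' | (j | x))
        · exact hh hd1
        · exact absurd hd2 (a_ll _ _)
        · exact absurd hd2 (a_lt _ _)
        · exact absurd hd2 (a_le _ _)
      have hl0 := hl 0
      have hl1 := hl 1
      have hn0 : c (lf 0) ≠ 0 := hD.1 _ hl0
      have hn1 : c (lf 1) ≠ 0 := hD.1 _ hl1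
      rw [if_neg hh, if_pos hl0, if_pos hl1] at hw'
      rw [hX] at h3
      rw [hY] at h2
      omega
    have hhc : c (hb : VT S q) ≠ 0 := hD.1 _ hhub
    rw [if_pos hhub] at hw'
    rw [hX] at h3
    rw [hY] at h2
    have hc1 : c (hb : VT S q) = 1 := by omega
    have h4 := h1 2 (by
      intro j hj
      have h5 : c (tr j) ≠ 0 := hD.1 _ hj
      have h6 : c hb ≠ c (tr j) := hc _ _ (a_ht j)
      omega)
    rw [hX] at h4
    have hA0 : A.card = 0 := by omega
    have hBall : B = Finset.univ := by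
      rw [Finset.eq_univ_iff_forall]
      intro e
      rw [hB, Finset.mem_filter]
      refine ⟨Finset.mem_univ _, ?_⟩
      by_contra he
      obtain ⟨d, hd1, hd2, _⟩ := hD.2 _ he
      rcases d with u | (i | (j | x))
      · exact absurd hd2.symm (a_he _)
      · exact absurd hd2.symm (a_le _ _)
      · have : j ∈ A := by
          rw [hA, Finset.mem_filter]
          exact ⟨Finset.mem_univ _, hd1⟩
        rw [Finset.card_eq_zero.1 hA0] at this
        exact absurd this (Finset.notMem_empty _)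
      · exact absurd hd2 (a_ee _ _)
    have hBc : B.card = 3 * q := by
      rw [hBall]
      simp
    omega
  · rintro ⟨C, hC, hcov⟩
    have hnot : (hb : VT S q) ∉ C.image (fun j => (tr j : VT S q)) := by simp
    have hinj : Set.InjOn (fun j => (tr j : VT S q)) C := fun a _ b _ hab =>
      Sum.inl_injective (Sum.inr_injective (Sum.inr_injective hab))
    refine ⟨col, insert hb (C.image (fun j => (tr j : VT S q))), ?_, ⟨?_, ?_⟩, ?_⟩
    · rintro (u | (i | (j | x))) (u' | (i' | (j' | x'))) h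
      · exact absurd h (a_hh _)
      · simp [col]
      · simp [col]
      · exact absurd h (a_he _)
      · simp [col]
      · exact absurd h (a_ll _ _)
      · exact absurd h (a_lt _ _)
      · exact absurd h (a_le _ _)
      · simp [col]
      · exact absurd h.symm (a_lt _ _)
      · exact absurd h (a_tt _ _)
      · simp [col]
      · exact absurd h.symm (a_he _)
      · exact absurd h.symm (a_le _ _)
      · simp [col]
      · exact absurd h (a_ee _ _)
    · intro v hv
      rw [Finset.mem_insert, Finset.mem_image] at hv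
      rcases hv with rfl | ⟨j, _, rfl⟩
      · simp [col]
      · simp [col]
    · intro v hv
      rcases v with u | (i | (j | x))
      · exact absurd (Finset.mem_insert_self _ _) hv
      · exact ⟨hb, Finset.mem_insert_self _ _, (a_hl i).symm, by simp [col]⟩
      · exact ⟨hb, Finset.mem_insert_self _ _, (a_ht j).symm, by simp [col]⟩
      · obtain ⟨j, hj, hx⟩ := hcov x x.isLt
        exact ⟨tr j, Finset.mem_insert_of_mem (Finset.mem_image_of_mem _ hj),
          ((a_te j x).2 hx).symm, by simp [col]⟩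
    · rw [Finset.sum_insert hnot, Finset.sum_image hinj]
      have : ∑ x ∈ C, col (tr x : VT S q) = C.card := by simp [col]
      rw [this]
      simp only [col]
      omega

theorem red_iff (I : List (ℕ × ℕ × ℕ) × ℕ) (h : PrX I.1 I.2) : X3C I ↔ UCWBipartite (red I) := by
  obtain ⟨S, q⟩ := I
  have hmin : min (3 * q) (3 * S.length) = 3 * q := min_eq_left (Nat.mul_le_mul_left _ h.q_le)
  obtain ⟨e⟩ := FG.ofList_iso (vsL S.length (3 * q)) (vsL_nodup _ _) (lab S q)
    (lab_injective S q) (mem_vsL S q) (adB S) (HG S q) (fun _ _ => Iff.rfl)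
  have h3 : red (S, q) = (FG.ofList (vsL S.length (3 * q)) (adB S), q + 2) := by
    unfold red
    simp only [hmin]
  rw [x3c_iff_cover, ← core h, h3]
  unfold UCWBipartite
  simp only
  rw [omega_le_iff]
  constructor
  · intro hc
    refine ⟨?_, by omega, hc.of_iso e.symm⟩
    obtain ⟨C⟩ := bip (S := S) (q := q)
    exact ⟨C.comp e.toHom⟩
  · rintro ⟨_, _, hc⟩
    exact hc.of_iso e

theorem npHard_ucw : NPHardP UCWBipartite :=
  (hardPr_cover.trans (Pr' := fun _ => True) red_poly (fun _ _ => trivial) red_iff).toHardI.toNPHardP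

end Red

/-- **UCW for bipartite graphs is `NP`-complete.** -/
theorem result : InNPP UCWBipartite ∧ NPHardP UCWBipartite := ⟨inNPP_ucw, npHard_ucw⟩

end Pool.Agent.Results.MP_07a0c6_lc.BipartiteNPComplete
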